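import Pool.Agent.X104.CI.Fin

/-!
# MP_4d7ea7_an: the capacitary inradius and the Maz'ya–Shubin inradius are comparable

For all `1 < p < N` and all `γ ∈ (0,1)` there are `c₁, c₂ > 0` with
`c₁ R^MS_{p,γ}(Ω) ≤ R_{p,γ}(Ω) ≤ c₂ R^MS_{p,γ}(Ω)` for every open `Ω ⊆ ℝ^N`.

Proof. If `r` is admissible for one of the two inradii, a test function `u ∈ C_0^∞(Ω)` with
`r^p ∫|∇u|^p ≤ C ∫|u|^p` is built from an almost optimal potential `φ` of `closedBall \ Ω`:
`u = η₂ H(1 - φ)`. Its `L^p` norm is bounded below because otherwise `φ + η₁ (H(1 - φ) + 2δ)` would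
be a competitor for the capacity of a slightly smaller ball with too little energy. If `ρ = c r`
were not admissible for the other inradius, then the capacity of `closedBall x ρ \ Ω` relative to
`ball x (2ρ)` would be at least `γ c₀ ρ^{N-p}` for every centre `x`, which gives the Poincaré
inequality `γ c₀ ∫|u|^p ≤ C' ρ^p ∫|∇u|^p` on `Ω` (test with `bump · (u(x) - u)/u(x)` and integrate
in `x`); this is false for small `c`.

Definitions in the helper modules: `IsTest E φ` (`φ` smooth with compact support contained in `E`),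
`EnE p φ = ∫⁻ ‖Dφ‖^p`, `cap p K E = inf {EnE p φ : IsTest E φ, φ ≥ 1 on K}`.
-/

set_option autoImplicit false

namespace Pool.Agent.Results.MP_4d7ea7_an.CapacitaryInradii

open Pool.Agent.X104.CI Set
open scoped ENNReal

/-- The capacitary inradius `R_{p,γ}(Ω) ∈ [0,∞]`: the supremum of the radii `r > 0` such that, for
some centre `x`, `cap_p(closedBall x r \ Ω; ball x (2r)) ≤ γ cap_p(closedBall x r; ball x (2r))`. -/
noncomputable def capInradius {N : ℕ} (p γ : ℝ) (Ω : Set (EuclideanSpace ℝ (Fin N))) : ℝ≥0∞ :=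
  ⨆ (r : ℝ) (_ : 0 < r) (_ : ∃ x : EuclideanSpace ℝ (Fin N),
    cap p (Metric.closedBall x r \ Ω) (Metric.ball x (2 * r)) ≤
      ENNReal.ofReal γ * cap p (Metric.closedBall x r) (Metric.ball x (2 * r))), ENNReal.ofReal r

/-- The Maz'ya–Shubin inradius `R^MS_{p,γ}(Ω) ∈ [0,∞]`: the supremum of the radii `r > 0` such
that, for some centre `x`, `cap_p(closedBall x r \ Ω) ≤ γ cap_p(closedBall x r)` (capacities
relative to the whole space). -/
noncomputable def msInradius {N : ℕ} (p γ : ℝ) (Ω : Set (EuclideanSpace ℝ (Fin N))) : ℝ≥0∞ :=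
  ⨆ (r : ℝ) (_ : 0 < r) (_ : ∃ x : EuclideanSpace ℝ (Fin N),
    cap p (Metric.closedBall x r \ Ω) univ ≤
      ENNReal.ofReal γ * cap p (Metric.closedBall x r) univ), ENNReal.ofReal r

/-- For all `1 < p < N` and `0 < γ < 1` the two inradii are comparable, with constants depending
only on `N`, `p`, `γ`. -/
theorem result : ∀ (N : ℕ) (p : ℝ), 1 < p → p < N → ∀ γ : ℝ, 0 < γ → γ < 1 →
    ∃ c₁ c₂ : ℝ, 0 < c₁ ∧ 0 < c₂ ∧ ∀ Ω : Set (EuclideanSpace ℝ (Fin N)), IsOpen Ω →
      ENNReal.ofReal c₁ * msInradius p γ Ω ≤ capInradius p γ Ω ∧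
      capInradius p γ Ω ≤ ENNReal.ofReal c₂ * msInradius p γ Ω := by
  intro N p hp hpN γ hγ0 hγ
  obtain ⟨c, hc, h⟩ := compare (N := N) hp hpN hγ0 hγ
  refine ⟨c, c⁻¹, hc, inv_pos.mpr hc, fun Ω _ => ⟨?_, ?_⟩⟩
  · exact h Ω (fun _ _ => univ) (fun x r => Metric.ball x (2 * r)) (fun _ _ => subset_univ _)
      (fun _ _ => Subset.rfl)
  · have h1 : ENNReal.ofReal c * capInradius p γ Ω ≤ msInradius p γ Ω :=
      h Ω (fun x r => Metric.ball x (2 * r)) (fun _ _ => univ) (fun _ _ => Subset.rfl)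
        (fun _ _ => subset_univ _)
    calc capInradius p γ Ω = ENNReal.ofReal c⁻¹ * (ENNReal.ofReal c * capInradius p γ Ω) := by
          rw [← mul_assoc, ← ENNReal.ofReal_mul (inv_nonneg.mpr hc.le), inv_mul_cancel₀ hc.ne',
            ENNReal.ofReal_one, one_mul]
      _ ≤ ENNReal.ofReal c⁻¹ * msInradius p γ Ω := by gcongr

end Pool.Agent.Results.MP_4d7ea7_an.CapacitaryInradii
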